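import Mathlib

/-! OVOIDS (MP_c637b9_co): the matrix lemma behind FACT 1.
`M` = the matrix of all words (rows) at all points (columns), `J` = the form on words. -/

set_option autoImplicit false
set_option linter.unusedSectionVars false

namespace Pool.OVO38

open Matrix

variable {F : Type*} [Field F] [CharP F 2] {I O : Type*} [Fintype I] [DecidableEq I] [Fintype O]
  [DecidableEq O]

/-- the Gram matrix of the points: `0` on the diagonal, `1` elsewhere. -/
def Lm (F O : Type*) [Field F] [DecidableEq O] : Matrix O O F :=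
  Matrix.of fun p q => if p = q then 0 else 1

theorem Lm_mulVec (v : O → F) (p : O) : (Lm F O *ᵥ v) p = (∑ q, v q) + v p := by
  classical
  have h1 : (Lm F O *ᵥ v) p + v p = ∑ q, v q := by
    rw [Matrix.mulVec, dotProduct]
    have : ∀ q, Lm F O p q * v q = v q - (if p = q then v q else 0) := by
      intro q
      by_cases hq : p = q
      · simp [Lm, hq]
      · simp [Lm, hq]
    simp only [this, Finset.sum_sub_distrib, Finset.sum_ite_eq, Finset.mem_univ, if_true]
    ring
  have h2 : v p + v p = 0 := CharTwo.add_self_eq_zero _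
  linear_combination h1 - h2

/-- rank argument: `M` has a right inverse. -/
theorem right_inv (M : Matrix I O F) (J : Matrix I I F) (hM : Mᵀ * J * M = Lm F O)
    (hc : Fintype.card O = Fintype.card I + 1) : ∃ N : Matrix O I F, M * N = 1 := by
  classical
  -- kernel of `M` has dimension at most one
  have hk : ∀ v : O → F, M *ᵥ v = 0 → ∃ c : F, v = fun _ => c := by
    intro v hv
    refine ⟨∑ q, v q, funext fun p => ?_⟩
    have h1 : Lm F O *ᵥ v = 0 := by
      rw [← hM, ← Matrix.mulVec_mulVec, hv, Matrix.mulVec_zero]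
    have h2 := congrFun h1 p
    rw [Lm_mulVec, Pi.zero_apply] at h2
    have h3 : v p + v p = 0 := CharTwo.add_self_eq_zero _
    linear_combination h3 - h2
  have hker : Module.finrank F (LinearMap.ker M.mulVecLin) ≤ 1 := by
    refine finrank_le_one (⟨fun _ => if M *ᵥ (fun _ => (1 : F)) = 0 then 1 else 0, ?_⟩) ?_
    · rw [LinearMap.mem_ker, Matrix.mulVecLin_apply]
      split_ifs with h
      · exact h
      · exact Matrix.mulVec_zero M
    · rintro ⟨w, hw⟩
      rw [LinearMap.mem_ker, Matrix.mulVecLin_apply] at hw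
      obtain ⟨c, hc'⟩ := hk w hw
      by_cases h : M *ᵥ (fun _ => (1 : F)) = 0
      · refine ⟨c, Subtype.ext ?_⟩
        simp only [h, if_true]
        funext p
        simp [hc']
      · refine ⟨0, Subtype.ext ?_⟩
        simp only [h, if_false, zero_smul]
        by_cases hc0 : c = 0
        · simp [hc', hc0]; rfl
        · exfalso
          apply h
          have : (fun _ : O => (1 : F)) = c⁻¹ • w := by
            funext p
            simp [hc', hc0]
          rw [this, Matrix.mulVec_smul, hw, smul_zero]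
  have hrk := LinearMap.finrank_range_add_finrank_ker M.mulVecLin
  rw [Module.finrank_fintype_fun_eq_card, hc] at hrk
  have hle : Module.finrank F (LinearMap.range M.mulVecLin) ≤ Fintype.card I := by
    have := Submodule.finrank_le (LinearMap.range M.mulVecLin)
    rwa [Module.finrank_fintype_fun_eq_card] at this
  have hrange : LinearMap.range M.mulVecLin = ⊤ := by
    apply Submodule.eq_top_of_finrank_eq
    rw [Module.finrank_fintype_fun_eq_card]
    omega
  have hsurj : Function.Surjective M.mulVec := by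
    intro y
    have : y ∈ LinearMap.range M.mulVecLin := hrange ▸ Submodule.mem_top
    obtain ⟨v, hv⟩ := this
    exact ⟨v, hv⟩
  choose g hg using hsurj
  refine ⟨Matrix.of fun p i => g (Pi.single i 1) p, ?_⟩
  ext i j
  have := congrFun (hg (Pi.single j 1)) i
  simp only [Matrix.mulVec, dotProduct] at this
  rw [Matrix.mul_apply]
  simp only [Matrix.of_apply]
  rw [this, Matrix.one_apply, Pi.single_apply]

/-- **FACT 1, matrix form.** -/
theorem mul_transpose (M : Matrix I O F) (J : Matrix I I F) (hJ : J * J = 1)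
    (hM : Mᵀ * J * M = Lm F O) (hc : Fintype.card O = Fintype.card I + 1)
    (ho : (Fintype.card O : F) = 1) : M * Mᵀ = J := by
  obtain ⟨N, hN⟩ := right_inv M J hM hc
  have hNt : Nᵀ * Mᵀ = 1 := by
    rw [← Matrix.transpose_mul, hN, Matrix.transpose_one]
  have hLL : Lm F O * Lm F O = Lm F O := by
    ext p q
    have h1 : (Lm F O * Lm F O) p q = (Lm F O *ᵥ fun r => Lm F O r q) p := rfl
    rw [h1, Lm_mulVec]
    have h2 : ∑ r, Lm F O r q = (Fintype.card O : F) - 1 := by
      have : ∀ r, Lm F O r q = 1 - (if r = q then 1 else 0) := by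
        intro r
        by_cases hr : r = q <;> simp [Lm, hr]
      simp [this, Finset.sum_sub_distrib]
    rw [h2, ho]; ring
  -- cancel
  have h1 : Mᵀ * J * M * (Mᵀ * J * M) = Mᵀ * J * M := by rw [hM, hLL]
  have h2 : Nᵀ * (Mᵀ * J * M * (Mᵀ * J * M)) * N = Nᵀ * (Mᵀ * J * M) * N := by rw [h1]
  have h3 : Nᵀ * (Mᵀ * J * M * (Mᵀ * J * M)) * N = J * (M * Mᵀ) * J := by
    calc Nᵀ * (Mᵀ * J * M * (Mᵀ * J * M)) * N
        = (Nᵀ * Mᵀ) * J * (M * Mᵀ) * J * (M * N) := by simp only [Matrix.mul_assoc]
      _ = J * (M * Mᵀ) * J := by rw [hNt, hN]; simp only [Matrix.one_mul, Matrix.mul_one]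
  have h4 : Nᵀ * (Mᵀ * J * M) * N = J := by
    calc Nᵀ * (Mᵀ * J * M) * N = (Nᵀ * Mᵀ) * J * (M * N) := by simp only [Matrix.mul_assoc]
      _ = J := by rw [hNt, hN, Matrix.one_mul, Matrix.mul_one]
  rw [h3, h4] at h2
  calc M * Mᵀ = (J * J) * (M * Mᵀ) * (J * J) := by rw [hJ, Matrix.one_mul, Matrix.mul_one]
    _ = J * (J * (M * Mᵀ) * J) * J := by simp only [Matrix.mul_assoc]
    _ = J * J * J := by rw [h2]
    _ = J := by rw [hJ, Matrix.one_mul]

/-- one-letter words have sum zero. -/
theorem mulVec_one (M : Matrix I O F) (J : Matrix I I F) (hJ : J * J = 1)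
    (hM : Mᵀ * J * M = Lm F O) (hc : Fintype.card O = Fintype.card I + 1)
    (ho : (Fintype.card O : F) = 1) : M *ᵥ (fun _ => (1 : F)) = 0 := by
  obtain ⟨N, hN⟩ := right_inv M J hM hc
  have hNt : Nᵀ * Mᵀ = 1 := by
    rw [← Matrix.transpose_mul, hN, Matrix.transpose_one]
  have h0 : Lm F O *ᵥ (fun _ => (1 : F)) = 0 := by
    funext p
    rw [Lm_mulVec]
    simp only [Finset.sum_const, Finset.card_univ, nsmul_eq_mul, mul_one, ho, Pi.zero_apply]
    exact CharTwo.add_self_eq_zero _
  have h1 : J *ᵥ (Nᵀ *ᵥ ((Mᵀ * J * M) *ᵥ (fun _ => (1 : F)))) = 0 := by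
    rw [hM, h0, Matrix.mulVec_zero, Matrix.mulVec_zero]
  have h2 : J *ᵥ (Nᵀ *ᵥ ((Mᵀ * J * M) *ᵥ (fun _ => (1 : F)))) = M *ᵥ (fun _ => (1 : F)) := by
    rw [Matrix.mulVec_mulVec, Matrix.mulVec_mulVec]
    congr 1
    calc J * Nᵀ * (Mᵀ * J * M) = J * ((Nᵀ * Mᵀ) * J * M) := by simp only [Matrix.mul_assoc]
      _ = M := by rw [hNt, Matrix.one_mul, ← Matrix.mul_assoc, hJ, Matrix.one_mul]
  rw [← h2, h1]

/-- a linear combination of rows that vanishes everywhere is zero. -/
theorem vecMul_inj (M : Matrix I O F) (J : Matrix I I F)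
    (hM : Mᵀ * J * M = Lm F O) (hc : Fintype.card O = Fintype.card I + 1) (c : I → F)
    (h0 : ∀ p, ∑ i, c i * M i p = 0) : c = 0 := by
  obtain ⟨N, hN⟩ := right_inv M J hM hc
  have h1 : c ᵥ* M = 0 := by
    funext p
    exact h0 p
  calc c = c ᵥ* (M * N) := by rw [hN, Matrix.vecMul_one]
    _ = 0 := by rw [← Matrix.vecMul_vecMul, h1, Matrix.zero_vecMul]

/-- every function with sum zero is a combination of rows. -/
theorem exists_comb (M : Matrix I O F) (J : Matrix I I F)
    (hM : Mᵀ * J * M = Lm F O) (g : O → F) (hg : ∑ p, g p = 0) :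
    ∀ p, g p = ∑ i, (J *ᵥ (M *ᵥ g)) i * M i p := by
  intro p
  have h1 : (Lm F O *ᵥ g) p = g p := by rw [Lm_mulVec, hg, zero_add]
  rw [← h1, ← hM, Matrix.mul_assoc, ← Matrix.mulVec_mulVec, Matrix.mulVec, dotProduct]
  refine Finset.sum_congr rfl fun i _ => ?_
  rw [Matrix.transpose_apply, Matrix.mulVec_mulVec, mul_comm]

end Pool.OVO38
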